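import Pool.Agent.Lib.MP_aed2da_nt.HTree
import Pool.Agent.Lib.MP_aed2da_nt.FourA
import Pool.Agent.Lib.MP_aed2da_nt.FourB
import Pool.Agent.Lib.MP_aed2da_nt.FourC
import Pool.Agent.Lib.MP_aed2da_nt.E23
import Pool.Agent.Lib.MP_aed2da_nt.E35
import Pool.Agent.Lib.MP_aed2da_nt.E37
import Pool.Agent.Lib.MP_aed2da_nt.E27
import Pool.Agent.Lib.MP_aed2da_nt.E56
import Pool.Agent.Lib.MP_aed2da_nt.E57

/-! The Pythagoras number of the ring of integers is at most four. -/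

open NumberField Pool.Agent.Lib.MP_aed2da_nt

namespace Pool.Agent.Results.MP_aed2da_nt.FourSquares

lemma transfer {R S : Type*} [CommRing R] [CommRing S] (e : Nonempty (R ≃+* S))
    (h : ∀ x : R, IsSumSq x → S4 x) (x : S) (hx : IsSumSq x) :
    ∃ p q r s : S, x = p ^ 2 + q ^ 2 + r ^ 2 + s ^ 2 := by
  obtain ⟨e⟩ := e
  have h1 : IsSumSq (e.symm x) := by
    induction hx with
    | zero => simp
    | sq_add a _ ih => simpa using IsSumSq.sq_add (e.symm a) ih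
  obtain ⟨p, q, r, s, h2⟩ := h _ h1
  exact ⟨e p, e q, e r, e s, by simpa using congrArg e h2⟩

theorem result (a b : ℕ) (h : (a, b) ∈ [(2, 3), (3, 5), (2, 7), (3, 7), (5, 6), (5, 7)])
    (x : 𝓞 (IntermediateField.adjoin ℚ ({Real.sqrt a, Real.sqrt b} : Set ℝ))) (hx : IsSumSq x) :
    ∃ p q r s, x = p ^ 2 + q ^ 2 + r ^ 2 + s ^ 2 := by
  simp only [List.mem_cons, Prod.mk.injEq, List.not_mem_nil, or_false] at h
  rcases h with ⟨rfl, rfl⟩ | ⟨rfl, rfl⟩ | ⟨rfl, rfl⟩ | ⟨rfl, rfl⟩ | ⟨rfl, rfl⟩ | ⟨rfl, rfl⟩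
  · exact transfer iso23 (four23 Eng.h3_23) x hx
  · exact transfer iso35 (four35 Eng.h3_35) x hx
  · exact transfer iso27 (four27 Eng.h3_27) x hx
  · exact transfer iso37 (four37 Eng.h3_37) x hx
  · exact transfer iso56 (four56 Eng.h3_56) x hx
  · exact transfer iso57 (four57 Eng.h3_57) x hx

end Pool.Agent.Results.MP_aed2da_nt.FourSquares
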