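import Pool.Agent.Lib.MP_aed2da_nt.ThreeC

/-! Sums of three squares in the ring of integers of the field of the roots of two and three. -/

open NumberField Pool.Agent.Lib.MP_aed2da_nt

namespace Pool.Agent.Results.MP_aed2da_nt.ThreeSquares

theorem result
    (x : 𝓞 (IntermediateField.adjoin ℚ ({Real.sqrt (2 : ℕ), Real.sqrt (3 : ℕ)} : Set ℝ)))
    (hx : IsSumSq x)
    (h : (∃ s t, s ^ 2 = 2 ∧ 2 * s ∣ x - t ^ 2) ∨ (∃ t, 3 ∣ x - t ^ 2) ∨
      ∃ s t, s ^ 2 = 6 ∧ (1 + s) ^ 2 ∣ x - t ^ 2) :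
    ∃ a b c, x = a ^ 2 + b ^ 2 + c ^ 2 := by
  obtain ⟨e⟩ := iso23
  obtain ⟨x, rfl⟩ := e.surjective x
  have h1 : ∀ y : 𝓞 (KK 2 3), IsSumSq y → Sq2 (e.symm y) ∧ ∀ i, 0 ≤ S23.σ i (e.symm y) := by
    intro y hy
    induction hy with
    | zero => exact ⟨⟨0, by simp⟩, by simp⟩
    | sq_add a _ ih =>
      obtain ⟨⟨t, u, ht⟩, h2⟩ := ih
      refine ⟨⟨e.symm a + t, u - e.symm a * t, ?_⟩, fun i => ?_⟩
      · rw [map_add, map_mul]
        linear_combination ht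
      · rw [map_add, map_mul, map_add, map_mul]
        exact add_nonneg (mul_self_nonneg _) (h2 i)
  obtain ⟨h2, h3⟩ := h1 _ hx
  rw [e.symm_apply_apply] at h2 h3
  by_cases h0 : x = 0
  · exact ⟨0, 0, 0, by simp [h0]⟩
  obtain ⟨a, b, c, h4⟩ : S3 x := by
    refine Three.crit h2 (Three.frac_all fun i => (h3 i).lt_of_ne' 
      ((map_ne_zero_iff _ (S23.inj i)).2 h0)) ?_
    rcases h with ⟨s, t, hs, ht⟩ | ⟨t, ht⟩ | ⟨s, t, hs, ht⟩
    · exact Or.inl ⟨e.symm s, e.symm t, by simpa [map_ofNat] using congrArg e.symm hs,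
        by simpa [map_ofNat] using map_dvd e.symm ht⟩
    · exact Or.inr (Or.inl ⟨e.symm t, by simpa [map_ofNat] using map_dvd e.symm ht⟩)
    · exact Or.inr (Or.inr ⟨e.symm s, e.symm t, by simpa [map_ofNat] using congrArg e.symm hs,
        by simpa [map_ofNat] using map_dvd e.symm ht⟩)
  exact ⟨e a, e b, e c, by simpa using congrArg e h4⟩

end Pool.Agent.Results.MP_aed2da_nt.ThreeSquares
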