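import Pool.Agent.Lib.MP_aed2da_nt.LS.T35

/-! Sums of three squares in the ring of integers of the field of the roots of three and five. -/

open NumberField Pool.Agent.Lib.MP_aed2da_nt

namespace Pool.Agent.Results.MP_aed2da_nt.ThreeSquares35

theorem result
    (x : 𝓞 (IntermediateField.adjoin ℚ ({Real.sqrt (3 : ℕ), Real.sqrt (5 : ℕ)} : Set ℝ)))
    (hpos : ∀ σ : 𝓞 (IntermediateField.adjoin ℚ
      ({Real.sqrt (3 : ℕ), Real.sqrt (5 : ℕ)} : Set ℝ)) →+* ℝ, 0 ≤ σ x)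
    (h6 : IsCoprime x 6) (hsq : ∃ t, 6 ∣ x - t ^ 2)
    (h11 : ∃ φ : 𝓞 (IntermediateField.adjoin ℚ
      ({Real.sqrt (3 : ℕ), Real.sqrt (5 : ℕ)} : Set ℝ)) →+* ZMod 11, IsSquare (-φ x)) :
    ∃ a b c, x = a ^ 2 + b ^ 2 + c ^ 2 := by
  obtain ⟨e⟩ := iso35
  obtain ⟨x, rfl⟩ := e.surjective x
  obtain ⟨t, ht⟩ := hsq
  obtain ⟨φ, s, hs⟩ := h11
  have h6' : IsCoprime x 6 := by simpa [map_ofNat] using h6.map (e.symm : _ →+* Q P35)
  have h0 : x ≠ 0 := by
    rintro rfl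
    obtain ⟨u, v, h⟩ := h6'
    have := congrArg Q.a h
    simp [Q.mul_a, Q.mul, Q.mulAux] at this
    omega
  obtain ⟨a, b, c, h⟩ := T35.three (x := x) (t := e.symm t)
    (fun i => lt_of_le_of_ne (by simpa using hpos ((S35.σ i).comp e.symm))
      ((map_ne_zero_iff _ (S35.inj i)).2 h0).symm) h6'
    (by simpa [map_ofNat] using map_dvd e.symm ht) (φ.comp e) s
    (by simp only [RingHom.comp_apply, RingHom.coe_coe]; linear_combination -hs)
  exact ⟨e a, e b, e c, by simpa using congrArg e h⟩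

end Pool.Agent.Results.MP_aed2da_nt.ThreeSquares35
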